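import Pool.Agent.Helper61.Apc.Closure
import Pool.Agent.Helper61.AQ.Ext
import Pool.Agent.Helper70.AQ.PlacesP

/-!
Linear groups in positive characteristic and over the algebraic numbers: asymptotic property C.
-/

set_option autoImplicit false

namespace Pool.Agent.Helper61.Apc

open Pool.Agent.Helper75.Apc

universe u v

theorem enoughPlaces_charP {K : Type u} [Field K] (p : ℕ) [Fact p.Prime] [CharP K p] :
    EnoughPlaces K := by
  intro T
  obtain ⟨k, v, hv, hfin⟩ := exists_places_charP_of (K := K) p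
    (fun A L _ _ _ _ _ v hv => exists_abv_fractionField v hv)
    (fun F E _ _ _ _ v hv => exists_extensions v hv)
    (fun F E _ _ _ v hv => exists_abv_extension v hv) T
  exact ⟨k, v, fun i => ⟨1, dim_nonarch (v i) (hv i)⟩, hfin⟩

theorem enoughPlaces_algebraic {K : Type u} [Field K] [CharZero K]
    (hK : ∀ x : K, IsAlgebraic ℤ x) : EnoughPlaces K := by
  have halg : Algebra.IsAlgebraic ℚ K := by
    constructor
    intro x
    obtain ⟨p, hp, hpx⟩ := hK x
    refine ⟨p.map (Int.castRingHom ℚ), ?_, ?_⟩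
    · rwa [ne_eq, Polynomial.map_eq_zero_iff (RingHom.injective_int _)]
    · rw [Polynomial.aeval_def, Polynomial.eval₂_map]
      have h1 : (algebraMap ℚ K).comp (Int.castRingHom ℚ) = algebraMap ℤ K :=
        Subsingleton.elim _ _
      rw [h1]
      exact hpx
  let f : K →ₐ[ℚ] AlgebraicClosure ℚ := IsAlgClosed.lift
  exact EnoughPlaces.of_hom (f : K →+* AlgebraicClosure ℚ) enoughPlaces_algebraicClosure

/-- a field of positive characteristic, or a field of algebraic numbers -/
def GoodField (K : Type u) [Field K] : Prop :=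
  (∃ p : ℕ, p.Prime ∧ CharP K p) ∨ (CharZero K ∧ ∀ x : K, IsAlgebraic ℤ x)

theorem GoodField.enoughPlaces {K : Type u} [Field K] (h : GoodField K) : EnoughPlaces K := by
  rcases h with ⟨p, hp, hK⟩ | ⟨h0, hK⟩
  · have : Fact p.Prime := ⟨hp⟩
    exact enoughPlaces_charP p
  · exact enoughPlaces_algebraic hK

theorem uniformOver_of_linear {G : Type v} [Group G]
    (hlin : ∀ T : Finset G, ∃ (m : ℕ) (K : Fin m → Type u) (_ : ∀ i, Field (K i))
      (d : Fin m → ℕ) (φ : ∀ i, G →* GL (Fin (d i)) (K i)),
      (∀ i, GoodField (K i)) ∧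
        {g : G | g ∈ Subgroup.closure (T : Set G) ∧ ∀ i, φ i g = 1}.Finite) (T : Finset G) :
    UniformOver T := by
  classical
  obtain ⟨m, K, instK, d, φ, hK, hker⟩ := hlin T
  refine uniformOver_of_family (H := fun i => GL (Fin (d i)) (K i)) T φ (fun i => ?_) hker
  refine uniformOver_of_hom (T.image (φ i)) (d i) (hK i).enoughPlaces (MonoidHom.id _) ?_
  refine (Set.finite_singleton 1).subset ?_
  rintro g ⟨_, hg⟩
  exact hg

end Pool.Agent.Helper61.Apc
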