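import Pool.Agent.Helper61.Apc.Core

/-!
The criterion for asymptotic property C.
-/

set_option autoImplicit false

namespace Pool.Agent.Helper61.Apc

open Relation Finset Pointwise Pool.Agent.Helper75.Apc

section lift

variable {G : Type*} [Group G] (Γ : Subgroup G)

/-- the component of `x` in `Γ`, with respect to a fixed set of representatives of the left
cosets of `Γ` -/
noncomputable def part (x : G) : Γ :=
  ⟨(Quotient.out (x : G ⧸ Γ))⁻¹ * x, by
    rw [← QuotientGroup.eq]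
    exact Quotient.out_eq _⟩

lemma part_mul {x y : G} (h : x⁻¹ * y ∈ Γ) :
    ((part Γ x)⁻¹ * part Γ y : Γ) = ⟨x⁻¹ * y, h⟩ := by
  have hq : (x : G ⧸ Γ) = (y : G ⧸ Γ) := QuotientGroup.eq.2 h
  apply Subtype.ext
  simp only [part, Subgroup.coe_mul, Subgroup.coe_inv, hq]
  group

lemma chain_lift {A : Set Γ} {T : Finset G} {T' : Finset Γ}
    (hT : ∀ s ∈ T, ∃ h : s ∈ Γ, (⟨s, h⟩ : Γ) ∈ T') {x y : G}
    (h : ReflTransGen (Helper75.Apc.Step {x | part Γ x ∈ A} T) x y) :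
    x⁻¹ * y ∈ Γ ∧ ReflTransGen (Helper75.Apc.Step A T') (part Γ x) (part Γ y) := by
  induction h with
  | refl => exact ⟨by rw [inv_mul_cancel]; exact Γ.one_mem, ReflTransGen.refl⟩
  | tail hab hst ih =>
    rename_i b z
    obtain ⟨hb, hch⟩ := ih
    obtain ⟨hbA, hzA, hbz⟩ := hst
    obtain ⟨hΓ, hT'⟩ := hT _ hbz
    refine ⟨?_, hch.tail ⟨hbA, hzA, ?_⟩⟩
    · have : x⁻¹ * z = (x⁻¹ * b) * (b⁻¹ * z) := by group
      rw [this]
      exact Γ.mul_mem hb hΓ
    · rw [part_mul Γ hΓ]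
      exact hT'

end lift

section

variable {G : Type*} [Group G]

/-- `H` has uniform relative asymptotic dimension in `G`: there is a `t` such that every finitely
generated overgroup `Γ = ⟨S⟩` of `⟨T⟩` has a length function which is proper on `⟨T⟩` and for which
`Γ` has asymptotic dimension at most `t - 1`. -/
def UniformOver (T : Finset G) : Prop :=
  ∃ t : ℕ, ∀ S : Finset G, T ⊆ S → ∃ ℓ : Subgroup.closure (S : Set G) → ℝ,
    IsLength ℓ ∧ Dim (gdist ℓ) t ∧
    ∀ ρ : ℝ, {h : Subgroup.closure (S : Set G) |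
      (h : G) ∈ Subgroup.closure (T : Set G) ∧ ℓ h ≤ ρ}.Finite

theorem core_sub (Γ : Subgroup G) (T S : Finset G) (hTS : T ⊆ S) (hSΓ : ∀ s ∈ S, s ∈ Γ)
    (h1S : (1 : G) ∈ S) (hSinv : ∀ s ∈ S, s⁻¹ ∈ S) (t t' : ℕ) (ℓ ℓ' : Γ → ℝ)
    (hℓ : IsLength ℓ) (hℓ' : IsLength ℓ') (hdim : Dim (gdist ℓ) t) (hdim' : Dim (gdist ℓ') t')
    (hfin : ∀ ρ : ℝ, {h : Γ | (h : G) ∈ Subgroup.closure (T : Set G) ∧ ℓ h ≤ ρ}.Finite)
    (hfin' : ∀ ρ : ℝ, {h : Γ | ℓ' h ≤ ρ}.Finite) :
    ∃ (A : ℕ → Set G) (F : Finset G), (∀ x, ∃ j < t, x ∈ A j) ∧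
      (∀ x y, x ∈ A 0 → ReflTransGen (Helper75.Apc.Step (A 0) T) x y → x⁻¹ * y ∈ F) ∧
      (∀ j, 1 ≤ j → j < t → ∀ x y, x ∈ A j →
        ReflTransGen (Helper75.Apc.Step (A j) S) x y → x⁻¹ * y ∈ F) := by
  classical
  obtain ⟨A, F, hcov, hA0, hAj⟩ := core t (T.subtype (fun s => s ∈ Γ))
    (S.subtype (fun s => s ∈ Γ)) (by
      rw [Finset.mem_subtype]
      exact h1S) (by
      intro s hs
      rw [Finset.mem_subtype] at hs ⊢
      exact hSinv _ hs) ℓ ℓ' hℓ hℓ' hdim ⟨t', hdim'⟩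
      ((Subgroup.closure (T : Set G)).subgroupOf Γ) (by
      intro s hs
      rw [Finset.mem_subtype] at hs
      rw [Subgroup.mem_subgroupOf]
      exact Subgroup.subset_closure hs) (by
      intro ρ
      refine (hfin ρ).subset ?_
      rintro h ⟨h1, h2⟩
      rw [Subgroup.mem_subgroupOf] at h1
      exact ⟨h1, h2⟩) hfin'
  refine ⟨fun j => {x | part Γ x ∈ A j}, F.image Subtype.val, ?_, ?_, ?_⟩
  · intro x
    obtain ⟨j, hj, hx⟩ := hcov (part Γ x)
    exact ⟨j, hj, hx⟩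
  · intro x y hx hxy
    obtain ⟨hm, hch⟩ := chain_lift Γ (T' := T.subtype (fun s => s ∈ Γ)) (by
      intro s hs
      refine ⟨hSΓ s (hTS hs), ?_⟩
      rw [Finset.mem_subtype]
      exact hs) hxy
    have := hA0 _ _ hx hch
    rw [part_mul Γ hm] at this
    rw [mem_image]
    exact ⟨_, this, rfl⟩
  · intro j hj hjt x y hx hxy
    obtain ⟨hm, hch⟩ := chain_lift Γ (T' := S.subtype (fun s => s ∈ Γ)) (by
      intro s hs
      refine ⟨hSΓ s hs, ?_⟩
      rw [Finset.mem_subtype]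
      exact hs) hxy
    have := hAj j hj hjt _ _ hx hch
    rw [part_mul Γ hm] at this
    rw [mem_image]
    exact ⟨_, this, rfl⟩

theorem core_group (hP : ∀ T : Finset G, UniformOver T) (T : Finset G) :
    ∃ t : ℕ, ∀ S : Finset G, T ⊆ S → (1 : G) ∈ S → (∀ s ∈ S, s⁻¹ ∈ S) →
      ∃ (A : ℕ → Set G) (F : Finset G), (∀ x, ∃ j < t, x ∈ A j) ∧
      (∀ x y, x ∈ A 0 → ReflTransGen (Helper75.Apc.Step (A 0) T) x y → x⁻¹ * y ∈ F) ∧
      (∀ j, 1 ≤ j → j < t → ∀ x y, x ∈ A j →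
        ReflTransGen (Helper75.Apc.Step (A j) S) x y → x⁻¹ * y ∈ F) := by
  classical
  obtain ⟨t, ht⟩ := hP T
  refine ⟨t, fun S hTS h1S hSinv => ?_⟩
  obtain ⟨ℓ, hℓ, hdim, hfin⟩ := ht S hTS
  obtain ⟨t', ht'⟩ := hP S
  obtain ⟨ℓ', hℓ', hdim', hfin'⟩ := ht' S (Finset.Subset.refl S)
  refine core_sub (Subgroup.closure (S : Set G)) T S hTS
    (fun s hs => Subgroup.subset_closure hs) h1S hSinv t t' ℓ ℓ' hℓ hℓ' hdim hdim' hfin ?_
  intro ρ
  refine (hfin' ρ).subset ?_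
  intro h h2
  exact ⟨h.2, h2⟩

end

section main

variable {G : Type*} [Group G] [MetricSpace G]

/-- the number of families depends only on a bound for the first radius -/
theorem hasFamilies_of_uniform (hinv : ∀ a b c : G, dist (a * b) (a * c) = dist b c)
    (hprop : ∀ r : ℝ, (Metric.closedBall (1 : G) r).Finite)
    (hP : ∀ T : Finset G, UniformOver T) (r : ℝ) :
    ∃ n : ℕ, ∀ R : ℕ → ℝ, (∀ i, 0 < R i) → Monotone R → R 0 ≤ r → HasFamilies G R n := by
  classical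
  set T : Finset G := (hprop (max r 0 + 1)).toFinset with hTdef
  have hsymm : ∀ ρ : ℝ, ∀ s ∈ (hprop ρ).toFinset, s⁻¹ ∈ (hprop ρ).toFinset := by
    intro ρ s hs
    rw [Set.Finite.mem_toFinset, Metric.mem_closedBall] at hs ⊢
    have := hinv s s⁻¹ 1
    rw [mul_inv_cancel, mul_one] at this
    rw [← this, dist_comm]
    exact hs
  have hone : ∀ ρ : ℝ, 0 ≤ ρ → (1 : G) ∈ (hprop ρ).toFinset := by
    intro ρ hρ
    rw [Set.Finite.mem_toFinset, Metric.mem_closedBall, dist_self]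
    exact hρ
  obtain ⟨t, ht⟩ := core_group hP T
  refine ⟨t, fun R hpos hmono hr => ?_⟩
  set ρS : ℝ := max (R t + 1) (max r 0 + 1) with hρS
  have hρS0 : 0 ≤ ρS := le_trans (by positivity) (le_max_right _ _)
  set S : Finset G := (hprop ρS).toFinset with hSdef
  have hTS : T ⊆ S := by
    intro s hs
    rw [hTdef, Set.Finite.mem_toFinset, Metric.mem_closedBall] at hs
    rw [hSdef, Set.Finite.mem_toFinset, Metric.mem_closedBall]
    exact hs.trans (le_max_right _ _)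
  obtain ⟨A, F, hcov, h0, hj⟩ := ht S hTS (hone _ hρS0) (hsymm _)
  let P : ℕ → Finset G := fun i => if i = 0 then T else S
  have hPsymm : ∀ i, ∀ s ∈ P i, s⁻¹ ∈ P i := by
    intro i
    by_cases hi : i = 0
    · simp only [P, hi, if_true]; exact hsymm _
    · simp only [P, hi, if_false]; exact hsymm _
  have hbd : ∀ i, i < t → ∀ x y, x ∈ A i →
      ReflTransGen (Helper75.Apc.Step (A i) (P i)) x y → x⁻¹ * y ∈ F := by
    intro i hi x y hx hxy
    by_cases hi0 : i = 0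
    · subst hi0
      exact h0 x y hx hxy
    · refine hj i (by omega) hi x y hx ?_
      have : P i = S := by simp only [P, hi0, if_false]
      rw [this] at hxy
      exact hxy
  have hdist : ∀ x y : G, dist x y = dist 1 (x⁻¹ * y) := by
    intro x y
    have := hinv x⁻¹ x y
    rw [inv_mul_cancel] at this
    exact this.symm
  refine ⟨fun i => {B | ∃ x ∈ A i, B = comp (A i) (P i) x}, ?_, ?_, ?_⟩
  · intro i
    refine ⟨∑ g ∈ F, dist 1 g, ?_⟩
    rintro B ⟨z, hz, rfl⟩ x hx y hy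
    have hxA : x ∈ A i := comp_subset hz hx
    have hxy : ReflTransGen (Helper75.Apc.Step (A i) (P i)) x y :=
      (chain_symm (hPsymm i) hx).trans hy
    have hmem := hbd i i.2 x y hxA hxy
    rw [hdist]
    exact single_le_sum (f := fun g => dist (1 : G) g) (fun _ _ => dist_nonneg) hmem
  · rintro i B ⟨z, hz, rfl⟩ B' ⟨z', hz', rfl⟩ hne
    refine ⟨R i + 1, by linarith, ?_⟩
    intro x hx y hy
    by_contra hlt
    push Not at hlt
    apply hne
    refine comp_eq_of_near (hPsymm i) hz hz' hx hy ?_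
    rw [hdist, dist_comm] at hlt
    by_cases hi : (i : ℕ) = 0
    · simp only [P, hi, if_true]
      rw [hTdef, Set.Finite.mem_toFinset, Metric.mem_closedBall]
      rw [hi] at hlt
      have := le_max_left r 0
      linarith
    · simp only [P, hi, if_false]
      rw [hSdef, Set.Finite.mem_toFinset, Metric.mem_closedBall]
      have hid : (i : ℕ) ≤ t := i.2.le
      have := hmono hid
      have := le_max_left (R t + 1) (max r 0 + 1)
      linarith
  · intro x
    obtain ⟨j, hj', hx⟩ := hcov x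
    exact ⟨⟨j, hj'⟩, comp (A j) (P j) x, ⟨x, hx, rfl⟩, ReflTransGen.refl⟩

end main

end Pool.Agent.Helper61.Apc
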