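import Pool.Agent.Helper61.Apc.Linear

/-!
Closure properties of the criterion, and finite asymptotic dimension of the finitely generated
subgroups.
-/

set_option autoImplicit false

namespace Pool.Agent.Helper61.Apc

open Finset Relation

theorem dim_pi_explicit {ι : Type*} [Fintype ι] {X : ι → Type*} {δ : ∀ i, X i → X i → ℝ}
    (hnn : ∀ i a b, 0 ≤ δ i a b) (t : ι → ℕ) (ht : ∀ i, Dim (δ i) (t i)) :
    Dim (fun p q : ∀ i, X i => ∑ i, δ i (p i) (q i)) (∏ i, t i) := by
  classical
  intro r
  choose D A h1 h2 using fun i => ht i r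
  have hcard : Fintype.card (∀ i, Fin (t i)) = ∏ i, t i := by
    rw [Fintype.card_pi]
    simp
  have e := (Fintype.equivFinOfCardEq hcard).symm
  refine ⟨∑ i, D i, fun k => {p | ∀ i, p i ∈ A i (e k i)}, ?_, ?_⟩
  · intro p
    choose c hc using fun i => h1 i (p i)
    refine ⟨e.symm c, fun i => ?_⟩
    rw [Equiv.apply_symm_apply]
    exact hc i
  · intro k p hp q hpq
    refine Finset.sum_le_sum (fun i _ => ?_)
    have key : ∀ q', ReflTransGen (Step (fun p q : ∀ i, X i => ∑ i, δ i (p i) (q i)) r
        {p | ∀ i, p i ∈ A i (e k i)}) p q' →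
        ReflTransGen (Step (δ i) r (A i (e k i))) (p i) (q' i) := by
      intro q' hq'
      induction hq' with
      | refl => exact ReflTransGen.refl
      | tail hab hst ih =>
        refine ih.tail ⟨hst.1 i, ?_⟩
        refine le_trans (Finset.single_le_sum (f := fun j => δ j _ _)
          (fun j _ => hnn j _ _) (Finset.mem_univ i)) hst.2
    exact h2 i _ (p i) (hp i) (q i) (key q hpq)

lemma IsLength.nonneg {Γ : Type*} [Group Γ] {ℓ : Γ → ℝ} (h : IsLength ℓ) (g : Γ) : 0 ≤ ℓ g := by
  have h1 := h.mul g g⁻¹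
  have h2 := h.mul 1 (1 : Γ)
  have h3 := h.inv g
  rw [mul_inv_cancel] at h1
  rw [mul_one] at h2
  linarith

/-- closure under finite families of homomorphisms with finite common kernel -/
theorem uniformOver_of_family {G : Type*} [Group G] (T : Finset G) {m : ℕ} {H : Fin m → Type*}
    [∀ i, Group (H i)] [∀ i, DecidableEq (H i)] (f : ∀ i, G →* H i)
    (hH : ∀ i, UniformOver (T.image (f i)))
    (hker : {g : G | g ∈ Subgroup.closure (T : Set G) ∧ ∀ i, f i g = 1}.Finite) :
    UniformOver T := by
  classical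
  choose t ht using hH
  refine ⟨∏ i, t i, fun S hTS => ?_⟩
  choose ℓ hℓ hdim hfin using fun i => ht i (S.image (f i)) (image_subset_image hTS)
  have hmap : ∀ i, ∀ g : Subgroup.closure (S : Set G),
      f i g ∈ Subgroup.closure ((S.image (f i) : Finset (H i)) : Set (H i)) := by
    intro i g
    have h1 : f i g ∈ (Subgroup.closure (S : Set G)).map (f i) := ⟨g, g.2, rfl⟩
    rw [MonoidHom.map_closure] at h1
    rwa [coe_image]
  have hmapT : ∀ i, ∀ g : G, g ∈ Subgroup.closure (T : Set G) →
      f i g ∈ Subgroup.closure ((T.image (f i) : Finset (H i)) : Set (H i)) := by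
    intro i g hg
    have h1 : f i g ∈ (Subgroup.closure (T : Set G)).map (f i) := ⟨g, hg, rfl⟩
    rw [MonoidHom.map_closure] at h1
    rwa [coe_image]
  let F : ∀ i, Subgroup.closure (S : Set G) →
      Subgroup.closure ((S.image (f i) : Finset (H i)) : Set (H i)) := fun i g => ⟨f i g, hmap i g⟩
  have hFmul : ∀ i a b, F i (a * b) = F i a * F i b := by
    intro i a b
    apply Subtype.ext
    simp only [F, Subgroup.coe_mul, map_mul]
  have hFinv : ∀ i a, F i a⁻¹ = (F i a)⁻¹ := by
    intro i a
    apply Subtype.ext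
    simp only [F, Subgroup.coe_inv, map_inv]
  refine ⟨fun g => ∑ i, ℓ i (F i g), ⟨?_, ?_⟩, ?_, ?_⟩
  · intro g
    refine sum_congr rfl fun i _ => ?_
    rw [hFinv, (hℓ i).inv]
  · intro g h
    rw [← sum_add_distrib]
    refine sum_le_sum fun i _ => ?_
    rw [hFmul]
    exact (hℓ i).mul _ _
  · refine dim_comap (fun g i => F i g) (fun r => ⟨r, fun a b hab => ?_⟩)
      (fun D => ⟨D, fun a b hab => ?_⟩)
      (dim_pi_explicit (δ := fun i => gdist (ℓ i)) (fun i a b => (hℓ i).nonneg _) t hdim)
    · unfold gdist at hab ⊢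
      simp only [hFmul, hFinv] at hab
      exact hab
    · unfold gdist at hab ⊢
      simp only [hFmul, hFinv]
      exact hab
  · intro ρ
    -- the possible images
    have hI : (Set.univ.pi fun i : Fin m =>
        (Subtype.val '' {h : Subgroup.closure ((S.image (f i) : Finset (H i)) : Set (H i)) |
          (h : H i) ∈ Subgroup.closure ((T.image (f i) : Finset (H i)) : Set (H i)) ∧
            ℓ i h ≤ ρ})).Finite :=
      Set.Finite.pi' (fun i => (hfin i ρ).image _) |>.subset (by
        intro x hx i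
        exact hx i (Set.mem_univ _))
    have hcover : {h : Subgroup.closure (S : Set G) |
        (h : G) ∈ Subgroup.closure (T : Set G) ∧ ∑ i, ℓ i (F i h) ≤ ρ} ⊆
        ⋃ x ∈ (Set.univ.pi fun i : Fin m =>
        (Subtype.val '' {h : Subgroup.closure ((S.image (f i) : Finset (H i)) : Set (H i)) |
          (h : H i) ∈ Subgroup.closure ((T.image (f i) : Finset (H i)) : Set (H i)) ∧
            ℓ i h ≤ ρ})),
        {h : Subgroup.closure (S : Set G) | (h : G) ∈ Subgroup.closure (T : Set G) ∧
          ∀ i, f i h = x i} := by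
      rintro h ⟨hT, hρ⟩
      simp only [Set.mem_iUnion]
      refine ⟨fun i => f i h, ?_, hT, fun i => rfl⟩
      intro i _
      refine ⟨F i h, ⟨hmapT i h hT, ?_⟩, rfl⟩
      exact (single_le_sum (f := fun j => ℓ j (F j h)) (fun j _ => (hℓ j).nonneg _)
        (mem_univ i)).trans hρ
    refine (hI.biUnion fun x _ => ?_).subset hcover
    by_cases hx : ∃ h₀ : Subgroup.closure (S : Set G), (h₀ : G) ∈ Subgroup.closure (T : Set G) ∧
          ∀ i, f i h₀ = x i
    · obtain ⟨h₀, hT₀, hx₀⟩ := hx
      refine Set.Finite.of_finite_image (f := Subtype.val)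
        ((hker.image (fun g => (h₀ : G) * g)).subset ?_) Subtype.val_injective.injOn
      rintro _ ⟨h, ⟨hT, hxh⟩, rfl⟩
      refine ⟨(h₀ : G)⁻¹ * h, ⟨Subgroup.mul_mem _ (Subgroup.inv_mem _ hT₀) hT, fun i => ?_⟩,
        by simp⟩
      rw [map_mul, map_inv, hxh i, hx₀ i, inv_mul_cancel]
    · convert Set.finite_empty
      ext h
      constructor
      · rintro ⟨hT, hxh⟩
        exact absurd ⟨h, hT, hxh⟩ hx
      · exact fun h => absurd h (Set.notMem_empty _)

section fin

variable {G : Type*} [Group G] [MetricSpace G]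

open Pool.Agent.Helper75.Apc

/-- a metric space with `Dim` has the families of finite asymptotic dimension -/
theorem hasFamilies_of_dim {X : Type*} [MetricSpace X] {t : ℕ}
    (h : Dim (fun x y : X => dist x y) t) (r : ℝ) : HasFamilies X (fun _ => r) t := by
  obtain ⟨D, A, hcov, hb⟩ := h (r + 1)
  refine ⟨fun i => {B | ∃ x ∈ A i, B = {y | ReflTransGen (Step dist (r + 1) (A i)) x y}},
    ?_, ?_, ?_⟩
  · intro i
    refine ⟨D + D, ?_⟩
    rintro B ⟨z, hz, rfl⟩ x hx y hy
    have h1 := hb i z hz x hx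
    have h2 := hb i z hz y hy
    have h3 := dist_triangle x z y
    rw [dist_comm x z] at h3
    linarith
  · rintro i B ⟨z, hz, rfl⟩ B' ⟨z', hz', rfl⟩ hne
    refine ⟨r + 1, by linarith, ?_⟩
    intro x hx y hy
    by_contra hlt
    push Not at hlt
    apply hne
    have hsymm : ∀ a ∈ A i, ∀ b, ReflTransGen (Step dist (r + 1) (A i)) a b →
        ReflTransGen (Step dist (r + 1) (A i)) b a := by
      intro a ha b hab
      induction hab with
      | refl => exact ReflTransGen.refl
      | tail hab hst ih =>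
        refine ReflTransGen.head ⟨rtg_mem ha hab, ?_⟩ ih
        rw [dist_comm]
        exact hst.2
    have hxA : x ∈ A i := rtg_mem hz hx
    have hyA : y ∈ A i := rtg_mem hz' hy
    have hzz' : ReflTransGen (Step dist (r + 1) (A i)) z z' :=
      (ReflTransGen.tail hx ⟨hyA, hlt.le⟩).trans (hsymm z' hz' y hy)
    ext w
    constructor
    · intro hw
      exact (hsymm z hz z' hzz').trans hw
    · intro hw
      exact hzz'.trans hw
  · intro x
    obtain ⟨i, hi⟩ := hcov x
    exact ⟨i, _, ⟨x, hi, rfl⟩, ReflTransGen.refl⟩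

/-- the finitely generated subgroups have finite asymptotic dimension -/
theorem finite_asdim_of_uniform (hinv : ∀ a b c : G, dist (a * b) (a * c) = dist b c)
    (hprop : ∀ r : ℝ, (Metric.closedBall (1 : G) r).Finite)
    (hP : ∀ T : Finset G, UniformOver T) (H : Subgroup G) (hH : H.FG) :
    ∃ t : ℕ, ∀ r : ℝ, HasFamilies H (fun _ => r) t := by
  classical
  obtain ⟨S, rfl⟩ := hH
  obtain ⟨t, ht⟩ := hP S
  obtain ⟨ℓ, hℓ, hdim, hfin⟩ := ht S (Finset.Subset.refl S)
  refine ⟨t, hasFamilies_of_dim ?_⟩
  have hdist : ∀ x y : G, dist x y = dist (x⁻¹ * y) 1 := by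
    intro x y
    have := hinv x⁻¹ x y
    rw [inv_mul_cancel] at this
    rw [dist_comm (x⁻¹ * y) 1]
    exact this.symm
  refine dim_comap id (fun r => ?_) (fun D => ?_) hdim
  · -- balls are finite
    have h1 : {h : Subgroup.closure (S : Set G) | dist (h : G) 1 ≤ r}.Finite := by
      refine Set.Finite.of_finite_image (f := Subtype.val) ((hprop r).subset ?_)
        Subtype.val_injective.injOn
      rintro _ ⟨h, hh, rfl⟩
      exact hh
    refine ⟨∑ g ∈ h1.toFinset, |ℓ g|, fun a b hab => ?_⟩
    refine le_sum_abs (ℓ := ℓ) ?_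
    rw [Set.Finite.mem_toFinset]
    show dist (((id a)⁻¹ * id b : Subgroup.closure (S : Set G)) : G) 1 ≤ r
    have h2 : dist (a : G) (b : G) ≤ r := hab
    rw [hdist] at h2
    exact h2
  · have h1 : {h : Subgroup.closure (S : Set G) | ℓ h ≤ D}.Finite := by
      refine (hfin D).subset ?_
      intro h hh
      exact ⟨h.2, hh⟩
    refine ⟨∑ g ∈ h1.toFinset, dist (g : G) 1, fun a b hab => ?_⟩
    show dist (a : G) (b : G) ≤ _
    rw [hdist]
    exact single_le_sum (f := fun g : Subgroup.closure (S : Set G) => dist (g : G) 1)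
      (fun _ _ => dist_nonneg) ((Set.Finite.mem_toFinset h1).2 hab)

end fin

end Pool.Agent.Helper61.Apc
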