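import Pool.Agent.Helper61.Apc.Kolm
import Pool.Agent.Helper75.Apc.Main

/-!
The construction of the families in a finitely generated group: one family of tiles at the first
scale and `t - 1` families of walls at an arbitrary scale.
-/

set_option autoImplicit false

namespace Pool.Agent.Helper61.Apc

open Relation Finset Pointwise

section

variable {Γ : Type*} [Group Γ]

/-- a length function on a group (not necessarily zero at the identity) -/
structure IsLength (ℓ : Γ → ℝ) : Prop where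
  inv : ∀ g, ℓ g⁻¹ = ℓ g
  mul : ∀ g h, ℓ (g * h) ≤ ℓ g + ℓ h

/-- the left-invariant pseudometric of a length function -/
def gdist (ℓ : Γ → ℝ) (a b : Γ) : ℝ := ℓ (a⁻¹ * b)

lemma IsLength.symm {ℓ : Γ → ℝ} (h : IsLength ℓ) (a b : Γ) : gdist ℓ a b = gdist ℓ b a := by
  unfold gdist
  rw [← h.inv, mul_inv_rev, inv_inv]

lemma IsLength.tri {ℓ : Γ → ℝ} (h : IsLength ℓ) (a b c : Γ) :
    gdist ℓ a c ≤ gdist ℓ a b + gdist ℓ b c := by
  unfold gdist
  have : a⁻¹ * c = (a⁻¹ * b) * (b⁻¹ * c) := by group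
  rw [this]
  exact h.mul _ _

lemma dim_mono_aux {X : Type*} {δ : X → X → ℝ} {s t : ℕ} (h : Dim δ s) (hst : s ≤ t) :
    Dim δ t := by
  intro r
  obtain ⟨D, A, hcov, hb⟩ := h r
  refine ⟨D, fun i => if hi : (i : ℕ) < s then A ⟨i, hi⟩ else ∅, ?_, ?_⟩
  · intro x
    obtain ⟨i, hi⟩ := hcov x
    refine ⟨⟨i, by omega⟩, ?_⟩
    simp only [i.2, dif_pos]
    exact hi
  · intro i
    by_cases hi : (i : ℕ) < s
    · simp only [hi, dif_pos]
      exact hb _
    · simp only [hi, dif_neg, not_false_eq_true]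
      intro x hx
      exact absurd hx (Set.notMem_empty x)

lemma le_sum_abs {ℓ : Γ → ℝ} {S : Finset Γ} {s : Γ} (hs : s ∈ S) : ℓ s ≤ ∑ g ∈ S, |ℓ g| :=
  (le_abs_self _).trans (single_le_sum (f := fun g => |ℓ g|) (fun _ _ => abs_nonneg _) hs)

theorem core [DecidableEq Γ] (t : ℕ) (T S : Finset Γ) (h1S : (1 : Γ) ∈ S)
    (hSinv : ∀ s ∈ S, s⁻¹ ∈ S)
    (ℓ ℓ' : Γ → ℝ) (hℓ : IsLength ℓ) (hℓ' : IsLength ℓ') (hdim : Dim (gdist ℓ) t)
    (hdim' : ∃ M, Dim (gdist ℓ') M) (H : Subgroup Γ) (hTH : ∀ s ∈ T, s ∈ H)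
    (hfin : ∀ ρ : ℝ, {h | h ∈ H ∧ ℓ h ≤ ρ}.Finite) (hfin' : ∀ ρ : ℝ, {g | ℓ' g ≤ ρ}.Finite) :
    ∃ (A : ℕ → Set Γ) (F : Finset Γ), (∀ x, ∃ j < t, x ∈ A j) ∧
      (∀ x y, x ∈ A 0 → ReflTransGen (Helper75.Apc.Step (A 0) T) x y → x⁻¹ * y ∈ F) ∧
      (∀ j, 1 ≤ j → j < t → ∀ x y, x ∈ A j →
        ReflTransGen (Helper75.Apc.Step (A j) S) x y → x⁻¹ * y ∈ F) := by
  classical
  have ht : 1 ≤ t := by
    obtain ⟨_, A, hcov, _⟩ := hdim 0
    obtain ⟨i, _⟩ := hcov 1
    have := i.2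
    omega
  obtain ⟨M', hM'⟩ := hdim'
  set M : ℕ := max M' t with hM
  have hMt : t ≤ M := le_max_right _ _
  have hdM : Dim (gdist ℓ') M := dim_mono_aux hM' (le_max_left _ _)
  -- the scale `r`
  set r : ℝ := (∑ g ∈ S ^ t, |ℓ g|) + ∑ g ∈ T, |ℓ g| with hr
  have hr0 : 0 ≤ r := add_nonneg (sum_nonneg fun _ _ => abs_nonneg _)
    (sum_nonneg fun _ _ => abs_nonneg _)
  have hrT : ∀ s ∈ T, ℓ s ≤ r := by
    intro s hs
    have h1 := le_sum_abs (ℓ := ℓ) hs
    have h2 : 0 ≤ ∑ g ∈ S ^ t, |ℓ g| := sum_nonneg fun _ _ => abs_nonneg _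
    linarith
  have hrS : ∀ s ∈ S ^ t, ℓ s ≤ r := by
    intro s hs
    have h1 := le_sum_abs (ℓ := ℓ) hs
    have h2 : 0 ≤ ∑ g ∈ T, |ℓ g| := sum_nonneg fun _ _ => abs_nonneg _
    linarith
  obtain ⟨D, X, hXcov, hXb⟩ := kolmogorov (fun a b => hℓ.symm a b) (fun a b c => hℓ.tri a b c)
    hdim M hMt (r + 2 * r)
  set Xt : Fin M → Set Γ := fun c => Thick (gdist ℓ) r (X c) with hXt
  have hXtb : ∀ c, ChainBdd (gdist ℓ) r (D + 2 * r) (Xt c) := fun c =>
    chainBdd_thick (fun a b => hℓ.symm a b) (fun a b c => hℓ.tri a b c) hr0 (hXb c)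
  set F₀ : Finset Γ := (hfin (D + 2 * r)).toFinset with hF₀
  have hmemF₀ : ∀ g, g ∈ F₀ ↔ g ∈ H ∧ ℓ g ≤ D + 2 * r := by
    intro g
    rw [hF₀, Set.Finite.mem_toFinset]
    exact Iff.rfl
  -- the second scale
  set w' : ℝ := ∑ g ∈ F₀ * T, |ℓ' g| with hw'
  have hw'0 : 0 ≤ w' := sum_nonneg fun _ _ => abs_nonneg _
  set b' : ℝ := ∑ g ∈ S ^ t, |ℓ' g| with hb'
  have hb'S : ∀ i ≤ t, ∀ s ∈ S ^ i, ℓ' s ≤ b' := by
    intro i hi s hs
    exact le_sum_abs (pow_subset_pow_right h1S hi hs)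
  obtain ⟨D', Y', hYcov, hYb⟩ := hdM (3 * b' + 2 * w')
  set Y : Fin M → Set Γ := fun c => Thick (gdist ℓ') w' (Y' c) with hY
  have hYtb : ∀ c, ChainBdd (gdist ℓ') (3 * b') (D' + 2 * w') (Y c) := fun c =>
    chainBdd_thick (fun a b => hℓ'.symm a b) (fun a b c => hℓ'.tri a b c) hw'0 (hYb c)
  set Z : Fin M → Set Γ := fun c => {z | z ∈ Y c ∧ z ∉ Xt c} with hZ
  set AA : ℕ → Γ → Finset (Fin M) := fun i x => univ.filter (fun c => ∃ s ∈ S ^ i, x * s ∈ Z c)
    with hAA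
  have hmemAA : ∀ i x c, c ∈ AA i x ↔ ∃ s ∈ S ^ i, x * s ∈ Z c := by
    intro i x c
    simp only [hAA, mem_filter, mem_univ, true_and]
  have hAAmono : ∀ i x, AA i x ⊆ AA (i + 1) x := by
    intro i x c hc
    rw [hmemAA] at hc ⊢
    obtain ⟨s, hs, hsZ⟩ := hc
    exact ⟨s, pow_subset_pow_right h1S (Nat.le_succ i) hs, hsZ⟩
  have hAAcard : ∀ x, (AA (t - 1) x).card ≤ t - 1 := by
    intro x
    obtain ⟨I, hI, hIx⟩ := hXcov x
    have hdisj : AA (t - 1) x ⊆ Iᶜ := by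
      intro c hc
      rw [hmemAA] at hc
      obtain ⟨s, hs, hsY, hsX⟩ := hc
      rw [mem_compl]
      intro hcI
      apply hsX
      refine Or.inr ⟨x, hIx c hcI, ?_⟩
      have h1 : ℓ s ≤ r := hrS s (pow_subset_pow_right h1S (by omega) hs)
      have h2 : gdist ℓ (x * s) x = ℓ s := by
        unfold gdist
        rw [mul_inv_rev, inv_mul_cancel_right, hℓ.inv]
      rw [h2]
      exact h1
    have h1 := card_le_card hdisj
    rw [card_compl, Fintype.card_fin] at h1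
    omega
  let A : ℕ → Set Γ := fun j => if j = 0 then {x | ∀ c, x ∉ Z c} else
    {x | j ≤ (AA (j - 1) x).card ∧ (AA j x).card ≤ j}
  have hA0 : A 0 = {x | ∀ c, x ∉ Z c} := by simp only [A, if_true]
  have hAj : ∀ j, 1 ≤ j → A j = {x | j ≤ (AA (j - 1) x).card ∧ (AA j x).card ≤ j} := by
    intro j hj
    have : j ≠ 0 := by omega
    simp only [A, this, if_false]
  set F₁ : Finset Γ := (hfin' (b' + (D' + 2 * w') + b')).toFinset with hF₁
  refine ⟨A, F₀ ∪ F₁, ?_, ?_, ?_⟩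
  · -- covering
    intro x
    by_cases hx : ∀ c, x ∉ Z c
    · refine ⟨0, by omega, ?_⟩
      rw [hA0]
      exact hx
    · push Not at hx
      obtain ⟨c, hc⟩ := hx
      have h0 : 1 ≤ (AA 0 x).card := by
        rw [Nat.succ_le_iff, card_pos]
        refine ⟨c, ?_⟩
        rw [hmemAA]
        exact ⟨1, by simp, by simpa using hc⟩
      have hmono' : ∀ i, (AA 0 x).card ≤ (AA i x).card := by
        intro i
        induction i with
        | zero => exact le_rfl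
        | succ i ih => exact ih.trans (card_le_card (hAAmono i x))
      have hP : ∃ q, 1 ≤ q ∧ (AA q x).card ≤ q :=
        ⟨t - 1, by have := hmono' (t - 1); have := hAAcard x; omega, hAAcard x⟩
      obtain ⟨hq1, hq2⟩ := Nat.find_spec hP
      have hqt : Nat.find hP ≤ t - 1 :=
        Nat.find_min' hP ⟨by have := hmono' (t - 1); have := hAAcard x; omega, hAAcard x⟩
      refine ⟨Nat.find hP, by omega, ?_⟩
      rw [hAj _ hq1]
      refine ⟨?_, hq2⟩
      by_cases hq : Nat.find hP = 1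
      · rw [hq]; exact h0
      · have hmin := Nat.find_min hP (m := Nat.find hP - 1) (by omega)
        push Not at hmin
        have := hmin (by omega)
        omega
  · -- tiles
    intro x y hx hxy
    rw [hA0] at hx
    obtain ⟨c, hc⟩ := hYcov x
    have hxY : x ∈ Y c := subset_thick _ _ hc
    have hnotZ : ∀ z, z ∈ Y c → z ∉ Z c → z ∈ Xt c := by
      intro z hz hzZ
      by_contra hcon
      exact hzZ ⟨hz, hcon⟩
    have hxX : x ∈ Xt c := hnotZ x hxY (hx c)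
    have key : ∀ z, ReflTransGen (Helper75.Apc.Step (A 0) T) x z →
        x⁻¹ * z ∈ F₀ ∧ ReflTransGen (Step (gdist ℓ) r (Xt c)) x z := by
      intro z hz
      induction hz with
      | refl =>
        refine ⟨?_, ReflTransGen.refl⟩
        rw [hmemF₀]
        refine ⟨by rw [inv_mul_cancel]; exact H.one_mem, ?_⟩
        exact hXtb c x hxX x ReflTransGen.refl
      | tail hab hst ih =>
        rename_i b z
        obtain ⟨hbF, hch⟩ := ih
        obtain ⟨_, hzA, hbz⟩ := hst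
        rw [hA0] at hzA
        have hprod : x⁻¹ * z = (x⁻¹ * b) * (b⁻¹ * z) := by group
        have hzY : z ∈ Y c := by
          refine Or.inr ⟨x, hc, ?_⟩
          have h1 : gdist ℓ' z x = ℓ' (x⁻¹ * z) := by
            rw [hℓ'.symm]; rfl
          rw [h1, hprod]
          exact le_sum_abs (mul_mem_mul hbF hbz)
        have hzX : z ∈ Xt c := hnotZ z hzY (hzA c)
        have hch' : ReflTransGen (Step (gdist ℓ) r (Xt c)) x z := hch.tail ⟨hzX, hrT _ hbz⟩
        refine ⟨?_, hch'⟩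
        rw [hmemF₀]
        refine ⟨?_, hXtb c x hxX z hch'⟩
        rw [hprod]
        exact H.mul_mem ((hmemF₀ _).1 hbF).1 (hTH _ hbz)
    exact mem_union_left _ (key y hxy).1
  · -- walls
    intro j hj hjt x y hx hxy
    rw [hAj j hj] at hx
    have heq : ∀ z ∈ A j, AA (j - 1) z = AA j z := by
      intro z hz
      rw [hAj j hj] at hz
      have hsub : AA (j - 1) z ⊆ AA j z := by
        have := hAAmono (j - 1) z
        rwa [Nat.sub_add_cancel hj] at this
      exact eq_of_subset_of_card_le hsub (by have h1 := hz.1; have h2 := hz.2; omega)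
    have hne : (AA (j - 1) x).Nonempty := by
      rw [← card_pos]
      have := hx.1
      omega
    obtain ⟨c, hc⟩ := hne
    obtain ⟨s, hs, hsZ⟩ := (hmemAA _ _ _).1 hc
    have key : ∀ z, ReflTransGen (Helper75.Apc.Step (A j) S) x z →
        c ∈ AA (j - 1) z ∧ ∃ s' ∈ S ^ (j - 1), z * s' ∈ Z c ∧
          ReflTransGen (Step (gdist ℓ') (3 * b') (Y c)) (x * s) (z * s') := by
      intro z hz
      induction hz with
      | refl => exact ⟨hc, s, hs, hsZ, ReflTransGen.refl⟩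
      | tail hab hst ih =>
        rename_i b z
        obtain ⟨hcb, s₁, hs₁, hs₁Z, hch⟩ := ih
        obtain ⟨hbA, hzA, hbz⟩ := hst
        have hcz : c ∈ AA (j - 1) z := by
          rw [heq z hzA, hmemAA]
          obtain ⟨s₂, hs₂, hs₂Z⟩ := (hmemAA _ _ _).1 hcb
          refine ⟨(z⁻¹ * b) * s₂, ?_, ?_⟩
          · have h1 : z⁻¹ * b ∈ S := by
              have := hSinv _ hbz
              rwa [mul_inv_rev, inv_inv] at this
            have h2 : S ^ j = S * S ^ (j - 1) := by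
              rw [← pow_succ', Nat.sub_add_cancel hj]
            rw [h2]
            exact mul_mem_mul h1 hs₂
          · have : z * (z⁻¹ * b * s₂) = b * s₂ := by group
            rw [this]
            exact hs₂Z
        obtain ⟨s₃, hs₃, hs₃Z⟩ := (hmemAA _ _ _).1 hcz
        refine ⟨hcz, s₃, hs₃, hs₃Z, hch.tail ⟨hs₃Z.1, ?_⟩⟩
        have h1 : gdist ℓ' (b * s₁) (z * s₃) = ℓ' (s₁⁻¹ * (b⁻¹ * z) * s₃) := by
          unfold gdist
          congr 1
          group
        rw [h1]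
        have h2 := hℓ'.mul (s₁⁻¹ * (b⁻¹ * z)) s₃
        have h3 := hℓ'.mul s₁⁻¹ (b⁻¹ * z)
        have h4 := hℓ'.inv s₁
        have h5 := hb'S (j - 1) (by omega) s₁ hs₁
        have h6 := hb'S (j - 1) (by omega) s₃ hs₃
        have h7 := hb'S 1 (by omega) (b⁻¹ * z) (by rwa [pow_one])
        linarith
    obtain ⟨_, s', hs', hs'Z, hch⟩ := key y hxy
    apply mem_union_right
    rw [hF₁, Set.Finite.mem_toFinset]
    have h1 : gdist ℓ' (x * s) (y * s') ≤ D' + 2 * w' := hYtb c (x * s) hsZ.1 (y * s') hch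
    unfold gdist at h1
    have h2 : x⁻¹ * y = s * ((x * s)⁻¹ * (y * s')) * s'⁻¹ := by group
    have h3 := hℓ'.mul (s * ((x * s)⁻¹ * (y * s'))) s'⁻¹
    have h4 := hℓ'.mul s ((x * s)⁻¹ * (y * s'))
    have h5 := hℓ'.inv s'
    have h6 := hb'S (j - 1) (by omega) s hs
    have h7 := hb'S (j - 1) (by omega) s' hs'
    show ℓ' (x⁻¹ * y) ≤ b' + (D' + 2 * w') + b'
    rw [h2]
    linarith

end

end Pool.Agent.Helper61.Apc
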