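import Mathlib

/-!
Asymptotic dimension in the language of chains, and the size of a matrix.
-/

set_option autoImplicit false

namespace Pool.Agent.Helper61.Apc

/-- a step of size at most `r` to a point of `A` -/
def Step {X : Type*} (δ : X → X → ℝ) (r : ℝ) (A : Set X) (a b : X) : Prop := b ∈ A ∧ δ a b ≤ r

/-- the `r`-chains in `A` are `D`-bounded -/
def ChainBdd {X : Type*} (δ : X → X → ℝ) (r D : ℝ) (A : Set X) : Prop :=
  ∀ x ∈ A, ∀ y, Relation.ReflTransGen (Step δ r A) x y → δ x y ≤ D

/-- `t` colours suffice at every scale: for every `r` the space is the union of `t` sets whose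
`r`-chains are uniformly bounded (asymptotic dimension at most `t - 1`) -/
def Dim {X : Type*} (δ : X → X → ℝ) (t : ℕ) : Prop :=
  ∀ r : ℝ, ∃ D : ℝ, ∃ A : Fin t → Set X, (∀ x, ∃ i, x ∈ A i) ∧ ∀ i, ChainBdd δ r D (A i)

/-- the size of a matrix: the sum of the absolute values of the entries of `g` and of `g⁻¹` -/
noncomputable def glSize {n K : Type*} [Fintype n] [DecidableEq n] [Field K]
    (v : AbsoluteValue K ℝ) (g : GL n K) : ℝ :=
  ∑ i, ∑ j, (v ((g : Matrix n n K) i j) + v (((g⁻¹ : GL n K) : Matrix n n K) i j))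

end Pool.Agent.Helper61.Apc
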