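import Pool.Agent.Helper61.Apc.Defs

/-!
Thickening of sets with bounded chains and Kolmogorov's trick: many sets with bounded chains such
that every point lies in all but few of them.
-/

set_option autoImplicit false

namespace Pool.Agent.Helper61.Apc

open Relation Finset

section

variable {X : Type*} {δ : X → X → ℝ}

/-- the closed `w`-neighbourhood of `A` -/
def Thick (δ : X → X → ℝ) (w : ℝ) (A : Set X) : Set X := {x | x ∈ A ∨ ∃ y ∈ A, δ x y ≤ w}

lemma subset_thick (w : ℝ) (A : Set X) : A ⊆ Thick δ w A := fun _ h => Or.inl h

lemma rtg_mem {r : ℝ} {A : Set X} {x y : X} (hx : x ∈ A) (h : ReflTransGen (Step δ r A) x y) :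
    y ∈ A := by
  induction h with
  | refl => exact hx
  | tail _ h _ => exact h.1

lemma nonneg_of_metric (hsymm : ∀ a b, δ a b = δ b a) (htri : ∀ a b c, δ a c ≤ δ a b + δ b c)
    (a b : X) : 0 ≤ δ a b := by
  have h1 := htri a b a
  have h2 := htri a a a
  have h3 := hsymm a b
  linarith

lemma chainBdd_thick (hsymm : ∀ a b, δ a b = δ b a) (htri : ∀ a b c, δ a c ≤ δ a b + δ b c)
    {r w D : ℝ} (hw : 0 ≤ w) {A : Set X} (h : ChainBdd δ (r + 2 * w) D A) :
    ChainBdd δ r (D + 2 * w) (Thick δ w A) := by
  intro x hx y hxy
  have key : ∀ z, ReflTransGen (Step δ r (Thick δ w A)) x z →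
      ∀ x' ∈ A, (x' = x ∨ δ x x' ≤ w) →
        ∃ z' ∈ A, (z' = z ∨ δ z z' ≤ w) ∧ ReflTransGen (Step δ (r + 2 * w) A) x' z' := by
    intro z hz x' hx' hxx'
    induction hz with
    | refl => exact ⟨x', hx', hxx', ReflTransGen.refl⟩
    | tail hab hstep ih =>
      rename_i b c
      obtain ⟨b', hb', hbb', hchain⟩ := ih
      have hc : ∃ c' ∈ A, (c' = c ∨ δ c c' ≤ w) := by
        rcases hstep.1 with hcA | ⟨c', hc', hcc'⟩
        · exact ⟨c, hcA, Or.inl rfl⟩
        · exact ⟨c', hc', Or.inr hcc'⟩
      obtain ⟨c', hc', hcc'⟩ := hc
      refine ⟨c', hc', hcc', hchain.tail ⟨hc', ?_⟩⟩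
      have hbc := hstep.2
      have h1 : δ b' c ≤ r + w := by
        rcases hbb' with rfl | h
        · linarith
        · have := htri b' b c
          rw [hsymm b' b] at this
          linarith
      rcases hcc' with rfl | h
      · linarith
      · have := htri b' c c'
        linarith
  have hx0 : ∃ x' ∈ A, (x' = x ∨ δ x x' ≤ w) := by
    rcases hx with hxA | ⟨x', hx', hxx'⟩
    · exact ⟨x, hxA, Or.inl rfl⟩
    · exact ⟨x', hx', Or.inr hxx'⟩
  obtain ⟨x', hx', hxx'⟩ := hx0
  obtain ⟨y', hy', hyy', hchain⟩ := key y hxy x' hx' hxx'
  have h1 := h x' hx' y' hchain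
  have h2 : δ x y' ≤ D + w := by
    rcases hxx' with rfl | h
    · linarith
    · have := htri x x' y'
      linarith
  rcases hyy' with rfl | h
  · linarith
  · have h3 := htri x y' y
    rw [hsymm y' y] at h3
    linarith

lemma chainBdd_mono {r r' D D' : ℝ} {A : Set X} (h : ChainBdd δ r D A) (hr : r' ≤ r)
    (hD : D ≤ D') : ChainBdd δ r' D' A := by
  intro x hx y hxy
  have hle : ReflTransGen (Step δ r' A) ≤ ReflTransGen (Step δ r A) :=
    ReflTransGen.mono (fun a b hab => ⟨hab.1, hab.2.trans hr⟩)
  exact (h x hx y (hle x y hxy)).trans hD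

/-- Kolmogorov's trick -/
theorem kolmogorov (hsymm : ∀ a b, δ a b = δ b a) (htri : ∀ a b c, δ a c ≤ δ a b + δ b c)
    {t : ℕ} (h : Dim δ t) (m : ℕ) (hm : t ≤ m) :
    ∀ r : ℝ, ∃ D : ℝ, ∃ A : Fin m → Set X,
      (∀ x, ∃ I : Finset (Fin m), m + 1 ≤ I.card + t ∧ ∀ i ∈ I, x ∈ A i) ∧
      ∀ i, ChainBdd δ r D (A i) := by
  classical
  induction m, hm using Nat.le_induction with
  | base =>
    intro r
    obtain ⟨D, A, hcov, hb⟩ := h r
    refine ⟨D, A, ?_, hb⟩
    intro x
    obtain ⟨i, hi⟩ := hcov x
    refine ⟨{i}, ?_, ?_⟩
    · simp
    · intro j hj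
      rw [mem_singleton] at hj
      rw [hj]; exact hi
  | succ m hm ih =>
    intro r
    set w : ℝ := max r 0 with hw
    have hw0 : 0 ≤ w := le_max_right _ _
    obtain ⟨D, A, hcov, hb⟩ := ih (w + 2 * w)
    set A' : Fin m → Set X := fun i => Thick δ w (A i) with hA'
    set I' : X → Finset (Fin m) := fun x => univ.filter (fun i => x ∈ A' i) with hI'
    set B : Set X := {x | (I' x).card + t ≤ m + 1} with hB
    refine ⟨max (D + 2 * w) D, Fin.snoc (α := fun _ => Set X) A' B, ?_, ?_⟩
    · intro x
      by_cases hx : x ∈ B
      · refine ⟨insert (Fin.last m) ((I' x).map Fin.castSuccEmb), ?_, ?_⟩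
        · rw [card_insert_of_notMem, card_map]
          · obtain ⟨I, hI, hIx⟩ := hcov x
            have : I ⊆ I' x := by
              intro i hi
              simp only [hI', mem_filter, mem_univ, true_and, hA']
              exact subset_thick _ _ (hIx i hi)
            have := card_le_card this
            omega
          · simp only [mem_map, Fin.coe_castSuccEmb, not_exists, not_and]
            intro i _
            exact (Fin.castSucc_lt_last i).ne
        · intro i hi
          rw [mem_insert, mem_map] at hi
          rcases hi with rfl | ⟨j, hj, rfl⟩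
          · rw [Fin.snoc_last]; exact hx
          · rw [Fin.coe_castSuccEmb, Fin.snoc_castSucc]
            simp only [hI', mem_filter, mem_univ, true_and] at hj
            exact hj
      · refine ⟨(I' x).map Fin.castSuccEmb, ?_, ?_⟩
        · rw [card_map]
          have hx : ¬ ((I' x).card + t ≤ m + 1) := hx
          omega
        · intro i hi
          rw [mem_map] at hi
          obtain ⟨j, hj, rfl⟩ := hi
          rw [Fin.coe_castSuccEmb, Fin.snoc_castSucc]
          simp only [hI', mem_filter, mem_univ, true_and] at hj
          exact hj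
    · intro i
      refine Fin.lastCases ?_ ?_ i
      · rw [Fin.snoc_last]
        -- the set `B`
        set J : X → Finset (Fin m) := fun x => univ.filter (fun i => x ∈ A i) with hJ
        have hJI : ∀ x, J x ⊆ I' x := by
          intro x i hi
          simp only [hJ, hI', mem_filter, mem_univ, true_and, hA'] at hi ⊢
          exact subset_thick _ _ hi
        have hJcard : ∀ x, m + 1 ≤ (J x).card + t := by
          intro x
          obtain ⟨I, hI, hIx⟩ := hcov x
          have : I ⊆ J x := by
            intro i hi
            simp only [hJ, mem_filter, mem_univ, true_and]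
            exact hIx i hi
          have := card_le_card this
          omega
        have hJeq : ∀ x ∈ B, J x = I' x := by
          intro x hx
          apply eq_of_subset_of_card_le (hJI x)
          have h1 := hJcard x
          have h2 : (I' x).card + t ≤ m + 1 := hx
          omega
        have hstep : ∀ x ∈ B, ∀ y ∈ B, δ x y ≤ r → J x = J y := by
          intro x hx y hy hxy
          have hsub : J y ⊆ J x := by
            rw [hJeq x hx]
            intro i hi
            simp only [hJ, hI', mem_filter, mem_univ, true_and, hA'] at hi ⊢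
            exact Or.inr ⟨y, hi, hxy.trans (le_max_left _ _)⟩
          have h1 := hJcard y
          have h2 : (I' x).card + t ≤ m + 1 := hx
          rw [← hJeq x hx] at h2
          exact (eq_of_subset_of_card_le hsub (by omega)).symm
        intro x hx y hxy
        have hne : (J x).Nonempty := by
          rw [← card_pos]
          have := hJcard x
          omega
        obtain ⟨i0, hi0⟩ := hne
        have key : ∀ z, ReflTransGen (Step δ r B) x z → z ∈ B ∧ J z = J x ∧
            ReflTransGen (Step δ (w + 2 * w) (A i0)) x z := by
          intro z hz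
          induction hz with
          | refl => exact ⟨hx, rfl, ReflTransGen.refl⟩
          | tail hab hst ih2 =>
            rename_i b c
            obtain ⟨hbB, hJb, hch⟩ := ih2
            have hJc : J c = J x := by rw [← hJb]; exact (hstep b hbB c hst.1 hst.2).symm
            refine ⟨hst.1, hJc, hch.tail ⟨?_, ?_⟩⟩
            · have : i0 ∈ J c := by rw [hJc]; exact hi0
              simp only [hJ, mem_filter, mem_univ, true_and] at this
              exact this
            · have := hst.2
              have := le_max_left r 0
              linarith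
        have hxA : x ∈ A i0 := by
          simp only [hJ, mem_filter, mem_univ, true_and] at hi0
          exact hi0
        exact (hb i0 x hxA y (key y hxy).2.2).trans (le_max_right _ _)
      · intro j
        rw [Fin.snoc_castSucc]
        exact chainBdd_mono (chainBdd_thick hsymm htri hw0 (hb j)) (le_max_left _ _)
          (le_max_left _ _)

end

end Pool.Agent.Helper61.Apc
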