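import Pool.Agent.Helper61.Apc.Criterion
import Pool.Agent.Helper75.AP.Basic
import Pool.Agent.Helper75.AP.Additive
import Pool.Agent.Helper75.AP.Size
import Pool.Agent.Helper31.AP.Fib
import Pool.Agent.Helper31.AP.Pivot
import Pool.Agent.Helper56.AP.GLStep
import Pool.Agent.Helper58.AP.Places

/-!
Linear groups over the algebraic numbers satisfy the criterion.
-/

set_option autoImplicit false

namespace Pool.Agent.Helper61.Apc

open Finset

theorem dim_GL {K : Type*} [Field K] (v : AbsoluteValue K ℝ) {c : ℕ}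
    (hK : Dim (fun x y : K => v (x - y)) c) (d : ℕ) :
    ∃ t, Dim (fun g g' : GL (Fin d) K => glSize v (g⁻¹ * g')) t := by
  induction d with
  | zero => exact ⟨1, dim_GL_empty v⟩
  | succ d ih =>
    obtain ⟨t, ht⟩ := ih
    obtain ⟨s, hs⟩ := dim_GL_step v hK ht
    have e : Fin d ⊕ Unit ≃ Fin (d + 1) := Fintype.equivFinOfCardEq (by simp)
    exact ⟨s, dim_GL_reindex v e hs⟩

/-- the length function of a homomorphism to `GL_d` and finitely many absolute values -/
noncomputable def homLength {Γ K : Type*} [Group Γ] [Field K] {d k : ℕ}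
    (v : Fin k → AbsoluteValue K ℝ) (φ : Γ →* GL (Fin d) K) (g : Γ) : ℝ :=
  ∑ i, Real.log (1 + glSize (v i) (φ g))

section

variable {Γ K : Type*} [Group Γ] [Field K] {d k : ℕ} (v : Fin k → AbsoluteValue K ℝ)
  (φ : Γ →* GL (Fin d) K)

lemma isLength_homLength : IsLength (homLength v φ) := by
  constructor
  · intro g
    unfold homLength
    simp only [map_inv, glSize_inv]
  · intro g h
    unfold homLength
    rw [← sum_add_distrib]
    refine sum_le_sum fun i _ => ?_
    have h1 := glSize_nonneg (v i) (φ g)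
    have h2 := glSize_nonneg (v i) (φ h)
    have h3 := glSize_mul (v i) (φ g) (φ h)
    have h4 := glSize_nonneg (v i) (φ g * φ h)
    rw [← Real.log_mul (by positivity) (by positivity), map_mul]
    apply Real.log_le_log (by positivity)
    nlinarith

lemma glSize_le_of_homLength {g : Γ} {ρ : ℝ} (h : homLength v φ g ≤ ρ) (i : Fin k) :
    glSize (v i) (φ g) ≤ Real.exp ρ := by
  have h0 : ∀ j : Fin k, 0 ≤ Real.log (1 + glSize (v j) (φ g)) := fun j =>
    Real.log_nonneg (by have := glSize_nonneg (v j) (φ g); linarith)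
  have h1 : Real.log (1 + glSize (v i) (φ g)) ≤ ρ :=
    (single_le_sum (f := fun j => Real.log (1 + glSize (v j) (φ g))) (fun j _ => h0 j)
      (mem_univ i)).trans h
  have h2 := glSize_nonneg (v i) (φ g)
  have h3 := (Real.log_le_iff_le_exp (by linarith)).1 h1
  linarith

lemma dim_homLength {t : ℕ}
    (ht : Dim (fun p q : Fin k → GL (Fin d) K => ∑ i, glSize (v i) ((p i)⁻¹ * q i)) t) :
    Dim (gdist (homLength v φ)) t := by
  refine dim_comap (fun g _ => φ g) ?_ ?_ ht
  · intro r
    refine ⟨∑ _i : Fin k, Real.exp r, fun a b hab => ?_⟩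
    refine sum_le_sum fun i _ => ?_
    have := glSize_le_of_homLength v φ hab i
    rwa [map_mul, map_inv] at this
  · intro D
    refine ⟨∑ _i : Fin k, Real.log (1 + |D|), fun a b hab => ?_⟩
    unfold gdist homLength
    refine sum_le_sum fun i _ => ?_
    rw [map_mul, map_inv]
    have h0 := glSize_nonneg (v i) ((φ a)⁻¹ * φ b)
    have h1 : glSize (v i) ((φ a)⁻¹ * φ b) ≤ D :=
      (single_le_sum (f := fun j => glSize (v j) ((φ a)⁻¹ * φ b))
        (fun j _ => glSize_nonneg (v j) _) (mem_univ i)).trans hab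
    apply Real.log_le_log (by linarith)
    have := le_abs_self D
    linarith

end

section

variable {G K : Type*} [Group G] [Field K] {d : ℕ}

/-- the entries of a homomorphism on a finitely generated subgroup lie in a finitely generated
ring -/
lemma entries_mem (φ : G →* GL (Fin d) K) (T : Finset G) (E : Set K)
    (hE : ∀ s ∈ T, ∀ i j, ((φ s : GL (Fin d) K) : Matrix (Fin d) (Fin d) K) i j ∈ E ∧
      (((φ s)⁻¹ : GL (Fin d) K) : Matrix (Fin d) (Fin d) K) i j ∈ E) {g : G}
    (hg : g ∈ Subgroup.closure (T : Set G)) :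
    ∀ i j, ((φ g : GL (Fin d) K) : Matrix (Fin d) (Fin d) K) i j ∈ Subring.closure E ∧
      (((φ g)⁻¹ : GL (Fin d) K) : Matrix (Fin d) (Fin d) K) i j ∈ Subring.closure E := by
  induction hg using Subgroup.closure_induction with
  | mem x hx =>
    intro i j
    exact ⟨Subring.subset_closure (hE x hx i j).1, Subring.subset_closure (hE x hx i j).2⟩
  | one =>
    intro i j
    have h1 : ((1 : GL (Fin d) K) : Matrix (Fin d) (Fin d) K) i j ∈ Subring.closure E := by
      rw [Units.val_one, Matrix.one_apply]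
      split_ifs
      · exact Subring.one_mem _
      · exact Subring.zero_mem _
    rw [map_one, inv_one]
    exact ⟨h1, h1⟩
  | mul x y _ _ hx hy =>
    intro i j
    rw [map_mul, mul_inv_rev, Units.val_mul, Units.val_mul, Matrix.mul_apply, Matrix.mul_apply]
    exact ⟨Subring.sum_mem _ fun l _ => Subring.mul_mem _ (hx i l).1 (hy l j).1,
      Subring.sum_mem _ fun l _ => Subring.mul_mem _ (hy i l).2 (hx l j).2⟩
  | inv x _ hx =>
    intro i j
    rw [map_inv, inv_inv]
    exact ⟨(hx i j).2, (hx i j).1⟩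

end

/-- the fields for which we have enough absolute values: for every finitely generated subring
there are finitely many absolute values, for each of which the field has finite asymptotic
dimension, such that only finitely many elements of the subring have a given bound for all of
them -/
def EnoughPlaces (K : Type*) [Field K] : Prop :=
  ∀ T : Finset K, ∃ (k : ℕ) (v : Fin k → AbsoluteValue K ℝ),
    (∀ i, ∃ c, Dim (fun x y : K => v i (x - y)) c) ∧
    ∀ B : ℝ, {x : K | x ∈ Subring.closure (T : Set K) ∧ ∀ i, v i x ≤ B}.Finite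

theorem enoughPlaces_algebraicClosure : EnoughPlaces (AlgebraicClosure ℚ) := by
  intro T
  obtain ⟨k, v, hv, hfin⟩ := exists_places T
  refine ⟨k, v, ?_, hfin⟩
  intro i
  rcases hv i with ⟨σ, hσ⟩ | hna
  · exact ⟨4, dim_complex (v i) σ hσ⟩
  · exact ⟨1, dim_nonarch (v i) hna⟩

theorem EnoughPlaces.of_hom {K L : Type*} [Field K] [Field L] (f : K →+* L)
    (h : EnoughPlaces L) : EnoughPlaces K := by
  classical
  intro T
  obtain ⟨k, v, hv, hfin⟩ := h (T.image f)
  refine ⟨k, fun i => (v i).comp f.injective, ?_, fun B => ?_⟩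
  · intro i
    obtain ⟨c, hc⟩ := hv i
    refine ⟨c, dim_comap f (fun r => ⟨r, fun a b hab => ?_⟩) (fun D => ⟨D, fun a b hab => ?_⟩) hc⟩
    · have h1 : (v i).comp f.injective (a - b) = v i (f a - f b) := by
        rw [← map_sub]; rfl
      rw [← h1]; exact hab
    · have h1 : (v i).comp f.injective (a - b) = v i (f a - f b) := by
        rw [← map_sub]; rfl
      rw [h1]; exact hab
  · refine Set.Finite.of_finite_image (f := f) ((hfin B).subset ?_) f.injective.injOn
    rintro _ ⟨x, ⟨hx, hxB⟩, rfl⟩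
    refine ⟨?_, hxB⟩
    have h1 : f x ∈ (Subring.closure (T : Set K)).map f := ⟨x, hx, rfl⟩
    rw [RingHom.map_closure] at h1
    rwa [coe_image]

/-- groups with homomorphisms to `GL_d(K)`, with finite kernel on a given finitely generated
subgroup -/
theorem uniformOver_of_hom {G : Type*} [Group G] (T : Finset G) (d : ℕ) {K : Type*} [Field K]
    (hK : EnoughPlaces K) (φ : G →* GL (Fin d) K)
    (hker : {g : G | g ∈ Subgroup.closure (T : Set G) ∧ φ g = 1}.Finite) : UniformOver T := by
  classical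
  set E : Finset K := T.biUnion (fun s => univ.biUnion (fun i => univ.biUnion (fun j =>
    {((φ s : GL (Fin d) K) : Matrix (Fin d) (Fin d) K) i j,
      (((φ s)⁻¹ : GL (Fin d) K) : Matrix (Fin d) (Fin d) K) i j}))) with hEdef
  have hE : ∀ s ∈ T, ∀ i j, ((φ s : GL (Fin d) K) : Matrix (Fin d) (Fin d) K) i j ∈ (E : Set K) ∧
      (((φ s)⁻¹ : GL (Fin d) K) : Matrix (Fin d) (Fin d) K) i j ∈ (E : Set K) := by
    intro s hs i j
    rw [mem_coe, mem_coe, hEdef]
    simp only [mem_biUnion, mem_univ, true_and, mem_insert, mem_singleton]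
    exact ⟨⟨s, hs, i, j, Or.inl rfl⟩, ⟨s, hs, i, j, Or.inr rfl⟩⟩
  obtain ⟨k, v, hdimK, hfin⟩ := hK E
  obtain ⟨t, ht⟩ := dim_pi (ι := Fin k) (X := fun _ => GL (Fin d) K)
    (δ := fun i g g' => glSize (v i) (g⁻¹ * g')) (fun i a b => glSize_nonneg _ _)
    (fun i => by
      obtain ⟨c, hc⟩ := hdimK i
      exact dim_GL (v i) hc d)
  refine ⟨t, fun S hTS => ?_⟩
  set ψ : Subgroup.closure (S : Set G) →* GL (Fin d) K :=
    φ.comp (Subgroup.closure (S : Set G)).subtype with hψ
  refine ⟨homLength v ψ, isLength_homLength v ψ, dim_homLength v ψ ht, fun ρ => ?_⟩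
  -- the matrices which occur
  have hM : {m : GL (Fin d) K | ∀ i j, (m : Matrix (Fin d) (Fin d) K) i j ∈
      {x : K | x ∈ Subring.closure (E : Set K) ∧ ∀ i, v i x ≤ Real.exp ρ}}.Finite := by
    have h1 : (Set.univ.pi fun _ : Fin d => Set.univ.pi fun _ : Fin d =>
        {x : K | x ∈ Subring.closure (E : Set K) ∧ ∀ i, v i x ≤ Real.exp ρ}).Finite :=
      Set.Finite.pi' (fun _ => Set.Finite.pi' fun _ => hfin (Real.exp ρ)) |>.subset (by
        intro m hm i j
        exact hm i (Set.mem_univ _) j (Set.mem_univ _))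
    refine Set.Finite.of_finite_image (f := fun m : GL (Fin d) K =>
      (m : Matrix (Fin d) (Fin d) K)) (h1.subset ?_) ?_
    · rintro _ ⟨m, hm, rfl⟩ i _ j _
      exact hm i j
    · intro a _ b _ hab
      exact Units.ext hab
  have hG : {g : G | g ∈ Subgroup.closure (T : Set G) ∧ φ g ∈ {m : GL (Fin d) K | ∀ i j,
      (m : Matrix (Fin d) (Fin d) K) i j ∈
      {x : K | x ∈ Subring.closure (E : Set K) ∧ ∀ i, v i x ≤ Real.exp ρ}}}.Finite := by
    have hcover : {g : G | g ∈ Subgroup.closure (T : Set G) ∧ φ g ∈ {m : GL (Fin d) K | ∀ i j,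
      (m : Matrix (Fin d) (Fin d) K) i j ∈
      {x : K | x ∈ Subring.closure (E : Set K) ∧ ∀ i, v i x ≤ Real.exp ρ}}} ⊆
      ⋃ m ∈ {m : GL (Fin d) K | ∀ i j, (m : Matrix (Fin d) (Fin d) K) i j ∈
      {x : K | x ∈ Subring.closure (E : Set K) ∧ ∀ i, v i x ≤ Real.exp ρ}},
      {g : G | g ∈ Subgroup.closure (T : Set G) ∧ φ g = m} := by
      rintro g ⟨hg, hgm⟩
      simp only [Set.mem_iUnion]
      exact ⟨φ g, hgm, hg, rfl⟩
    refine (hM.biUnion fun m _ => ?_).subset hcover
    by_cases hm : ∃ g₀ ∈ Subgroup.closure (T : Set G), φ g₀ = m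
    · obtain ⟨g₀, hg₀, rfl⟩ := hm
      refine (hker.image (fun g => g₀ * g)).subset ?_
      rintro g ⟨hg, hgm⟩
      refine ⟨g₀⁻¹ * g, ⟨Subgroup.mul_mem _ (Subgroup.inv_mem _ hg₀) hg, ?_⟩, by
        simp⟩
      rw [map_mul, map_inv, hgm, inv_mul_cancel]
    · convert Set.finite_empty
      ext g
      constructor
      · rintro ⟨hg, hgm⟩
        exact absurd ⟨g, hg, hgm⟩ hm
      · exact fun h => absurd h (Set.notMem_empty g)
  refine Set.Finite.of_finite_image (f := Subtype.val) (hG.subset ?_)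
    (Subtype.val_injective.injOn)
  rintro _ ⟨h, ⟨hh, hhρ⟩, rfl⟩
  refine ⟨hh, fun i j => ⟨(entries_mem φ T E hE hh i j).1, fun l => ?_⟩⟩
  exact (le_glSize (v l) (φ h) i j).trans (glSize_le_of_homLength v ψ hhρ l)

end Pool.Agent.Helper61.Apc
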